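import Pool.Agent.H82.C3.Stm
import Pool.Graph.R_pool_sql_team_seeded_3997aac3.Q148.CG.Alg
import Pool.Graph.R_seed8.Y159.QS.Quad

set_option autoImplicit false

/-! # Part CGB: ideals of norm at most `Y` in a class -/

namespace Pool.Agent.H62.C3

open NumberField Finset Pool.Agent.H82.C3

/-- integers up to `α` in absolute value, congruent modulo `M` -/
lemma card_ap (F : Finset ℤ) (M : ℕ) (hM : 0 < M) (α : ℝ)
    (hα : ∀ t ∈ F, |(t : ℝ)| ≤ α)
    (hd : ∀ t ∈ F, ∀ t' ∈ F, (M : ℤ) ∣ t - t') : F.card ≤ ⌊2 * α / M⌋₊ + 1 := by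
  rcases F.eq_empty_or_nonempty with rfl | hne
  · simp
  have hMR : (0 : ℝ) < M := by exact_mod_cast hM
  obtain ⟨t0, ht0, hmin⟩ := F.exists_min_image id hne
  have hmin' : ∀ t ∈ F, t0 ≤ t := hmin
  have hcard : F.card ≤ (range (⌊2 * α / M⌋₊ + 1)).card := by
    refine card_le_card_of_injOn (fun t => ((t - t0) / M).toNat) ?_ ?_
    · intro t ht
      obtain ⟨k, hk⟩ := hd t ht t0 ht0
      have h0 : 0 ≤ k := by
        have h1 := hmin' t ht
        have h2 : 0 ≤ (M : ℤ) * k := by rw [← hk]; linarith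
        exact nonneg_of_mul_nonneg_right h2 (by exact_mod_cast hM)
      have hk' : (t - t0) / (M : ℤ) = k := by
        rw [hk]
        exact Int.mul_ediv_cancel_left k (by exact_mod_cast hM.ne')
      have h3 : (k : ℝ) ≤ 2 * α / M := by
        rw [le_div_iff₀ hMR]
        have h4 : ((M : ℤ) : ℝ) * (k : ℝ) = (t : ℝ) - t0 := by
          rw [← Int.cast_mul, ← hk]; push_cast; ring
        have h5 := abs_le.mp (hα t ht)
        have h6 := abs_le.mp (hα t0 ht0)
        push_cast at h4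
        nlinarith
      simp only [coe_range, Set.mem_Iio]
      rw [hk', Nat.lt_succ_iff]
      apply Nat.le_floor
      have h7 : ((k.toNat : ℤ) : ℝ) = (k : ℝ) := by rw [Int.toNat_of_nonneg h0]
      have h8 : ((k.toNat : ℕ) : ℝ) = (k : ℝ) := by exact_mod_cast h7
      rw [h8]; exact h3
    · intro t ht t' ht' he
      obtain ⟨k, hk⟩ := hd t ht t0 ht0
      obtain ⟨k', hk'⟩ := hd t' ht' t0 ht0
      have hMz : (0 : ℤ) < M := by exact_mod_cast hM
      have h0 : 0 ≤ k := by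
        have h1 := hmin' t ht
        have h2 : 0 ≤ (M : ℤ) * k := by rw [← hk]; linarith
        exact nonneg_of_mul_nonneg_right h2 hMz
      have h0' : 0 ≤ k' := by
        have h1 := hmin' t' ht'
        have h2 : 0 ≤ (M : ℤ) * k' := by rw [← hk']; linarith
        exact nonneg_of_mul_nonneg_right h2 hMz
      simp only [hk, hk', Int.mul_ediv_cancel_left _ hMz.ne'] at he
      have h9 : k = k' := by
        rw [← Int.toNat_of_nonneg h0, ← Int.toNat_of_nonneg h0', he]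
      subst h9
      linarith
  simpa using hcard

variable {K : Type} [Field K] [NumberField K]

/-- integral coordinates -/
lemma el (h2 : Module.finrank ℚ K = 2) (d : ℕ) (hd : Squarefree d) (s : K)
    (hs : s ^ 2 = -(d : K)) (γ : 𝓞 K) : ∃ T V : ℤ,
      (γ : K) = (((T : ℚ) / 2 : ℚ) : K) + (((V : ℚ) / 2 : ℚ) : K) * s ∧
      T ^ 2 + d * V ^ 2 = 4 * Algebra.norm ℤ γ := by
  have hd1 : 1 ≤ d := Nat.one_le_iff_ne_zero.mpr hd.ne_zero
  obtain ⟨u, v, huv⟩ := Pool.Agent.Q148.CG.coords h2 d hd1 s hs (γ : K)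
  obtain ⟨hN, hT⟩ := Pool.Agent.Q148.CG.exists_conj h2 d hd1 s hs (γ : K) u v huv
  have h3 : ((Algebra.norm ℤ γ : ℤ) : ℚ) = u ^ 2 + d * v ^ 2 := by
    rw [Algebra.coe_norm_int, hN]
  have h4 : ((Algebra.trace ℤ (𝓞 K) γ : ℤ) : ℚ) = 2 * u := by
    rw [Algebra.coe_trace_int, hT]
  set N : ℤ := Algebra.norm ℤ γ with hNdef
  set t : ℤ := Algebra.trace ℤ (𝓞 K) γ with htdef
  have h5 : (d : ℚ) * (2 * v) ^ 2 = ((4 * N - t ^ 2 : ℤ) : ℚ) := by
    push_cast
    rw [h3, h4]; ring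
  obtain ⟨V, hV⟩ := Pool.Agent.Q148.CG.rat_int d hd (2 * v) _ h5
  refine ⟨t, V, ?_, ?_⟩
  · rw [huv, h4, ← hV]
    congr 2
    · ring_nf
    · ring_nf
  · have h6 : ((t ^ 2 + d * V ^ 2 : ℤ) : ℚ) = ((4 * N : ℤ) : ℚ) := by
      push_cast
      rw [← hV, h3, h4]; ring
    exact_mod_cast h6

theorem t_CGB (hA : S_CGA) : S_CGB := by
  intro K _ _ d h2 hd hd4 hd7 hdisc c Y hY S hS
  classical
  obtain ⟨s, -, hs0⟩ := Pool.Agent.Y159.QS.exists_sqrt (K := K) h2
  have hs : s ^ 2 = -(d : K) := by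
    rw [hs0, hdisc]; push_cast; ring
  obtain ⟨R, hR0, hRc, hRn, hRk⟩ := hA K d h2 hd hd4 hd7 hdisc c⁻¹
  set r : ℕ := Ideal.absNorm R with hr
  have hRne : R ≠ 0 := nonZeroDivisors.ne_zero hR0
  have hrpos : 0 < r := by
    rw [hr, Nat.pos_iff_ne_zero]
    intro h0
    exact hRne (Ideal.absNorm_eq_zero_iff.mp h0)
  -- the generators
  have hgen : ∀ J ∈ S, ∃ γ : 𝓞 K, J * R = Ideal.span {γ} := by
    intro J hJ
    obtain ⟨hJ0, hJc, -⟩ := hS J hJ
    have h1 : ClassGroup.mk0 (⟨J, hJ0⟩ * ⟨R, hR0⟩ : nonZeroDivisors (Ideal (𝓞 K))) = 1 := by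
      rw [map_mul, hJc, hRc, mul_inv_cancel]
    rw [ClassGroup.mk0_eq_one_iff] at h1
    obtain ⟨⟨γ, hγ⟩⟩ := h1
    exact ⟨γ, hγ⟩
  choose! g hg using hgen
  have hcoord : ∀ γ : 𝓞 K, ∃ p : ℤ × ℤ,
      (γ : K) = (((p.1 : ℚ) / 2 : ℚ) : K) + (((p.2 : ℚ) / 2 : ℚ) : K) * s ∧
      p.1 ^ 2 + d * p.2 ^ 2 = 4 * Algebra.norm ℤ γ := by
    intro γ
    obtain ⟨T, V, h⟩ := el h2 d hd s hs γ
    exact ⟨(T, V), h⟩
  choose co hco1 hco2 using hcoord
  -- bound for the norms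
  have hbd : ∀ J ∈ S, (co (g J)).1 ^ 2 + d * (co (g J)).2 ^ 2 ≤ 4 * (r * Y : ℤ) := by
    intro J hJ
    obtain ⟨hJ0, -, hJn⟩ := hS J hJ
    have h1 : Ideal.absNorm (Ideal.span {g J}) = Ideal.absNorm J * r := by
      rw [← hg J hJ, map_mul]
    rw [Ideal.absNorm_span_singleton] at h1
    rw [hco2]
    have h3 : Algebra.norm ℤ (g J) ≤ r * Y := by
      calc Algebra.norm ℤ (g J) ≤ |Algebra.norm ℤ (g J)| := le_abs_self _
        _ = ((Algebra.norm ℤ (g J)).natAbs : ℤ) := (Int.natCast_natAbs _).symm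
        _ = ((Ideal.absNorm J * r : ℕ) : ℤ) := by rw [h1]
        _ ≤ r * Y := by
          push_cast
          rw [mul_comm]
          exact mul_le_mul_of_nonneg_left (by exact_mod_cast hJn) (by positivity)
    linarith
  have hmem : ∀ J ∈ S, g J ∈ R := by
    intro J hJ
    have h1 : g J ∈ J * R := by rw [hg J hJ]; exact Ideal.mem_span_singleton_self _
    exact (Ideal.mul_le_inf h1).2
  have hinj : Set.InjOn (fun J => co (g J)) S := by
    intro J hJ J' hJ' he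
    have h1 : g J = g J' := by
      apply RingOfIntegers.coe_injective
      change ((g J : 𝓞 K) : K) = ((g J' : 𝓞 K) : K)
      simp only at he
      rw [hco1 (g J), hco1 (g J'), he]
    have h3 : J * R = J' * R := by rw [hg J hJ, hg J' hJ', h1]
    exact mul_right_cancel₀ hRne h3
  set P : Finset (ℤ × ℤ) := S.image (fun J => co (g J)) with hP
  have hPc : S.card = P.card := (card_image_of_injOn hinj).symm
  -- real bounds
  have hdR : (0 : ℝ) < d := by
    have : 0 < d := by omega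
    exact_mod_cast this
  have hrR : (0 : ℝ) < r := by exact_mod_cast hrpos
  have hYR : (1 : ℝ) ≤ Y := by exact_mod_cast hY
  set α : ℝ := 2 * Real.sqrt (r * Y) with hα
  have hα0 : 0 ≤ α := by positivity
  have hα2 : α ^ 2 = 4 * (r * Y) := by
    rw [hα, mul_pow, Real.sq_sqrt (by positivity)]; ring
  have hPb : ∀ p ∈ P, ((p.1 : ℤ) : ℝ) ^ 2 + d * ((p.2 : ℤ) : ℝ) ^ 2 ≤ α ^ 2 := by
    intro p hp
    rw [hP, mem_image] at hp
    obtain ⟨J, hJ, rfl⟩ := hp
    have h1 := hbd J hJ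
    rw [hα2]
    exact_mod_cast h1
  have hP1 : ∀ p ∈ P, |((p.1 : ℤ) : ℝ)| ≤ α := by
    intro p hp
    have h1 := hPb p hp
    apply abs_le_of_sq_le_sq _ hα0
    have : 0 ≤ (d : ℝ) * ((p.2 : ℤ) : ℝ) ^ 2 := by positivity
    linarith
  set β : ℝ := α / Real.sqrt d with hβ
  have hsd : 0 < Real.sqrt d := Real.sqrt_pos.mpr hdR
  have hβ0 : 0 ≤ β := by positivity
  have hP2 : ∀ p ∈ P, |((p.2 : ℤ) : ℝ)| ≤ β := by
    intro p hp
    have h1 := hPb p hp
    apply abs_le_of_sq_le_sq _ hβ0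
    rw [hβ, div_pow, Real.sq_sqrt hdR.le, le_div_iff₀ hdR]
    nlinarith [sq_nonneg ((p.1 : ℤ) : ℝ)]
  -- parity
  have hpar : ∀ γ : 𝓞 K, (2 : ℤ) ∣ (co γ).1 - (co γ).2 := by
    intro γ
    have h1 := hco2 γ
    have hd' : ((d : ℤ)) % 4 = 3 := by omega
    rcases Int.even_or_odd ((co γ).1 - (co γ).2) with he | ho
    · exact he.two_dvd
    · exfalso
      obtain ⟨k, hk⟩ := ho
      obtain ⟨q, hq⟩ : ∃ q : ℤ, (d : ℤ) = 4 * q + 3 := ⟨(d : ℤ) / 4, by omega⟩
      have h3 : (co γ).1 = (co γ).2 + (2 * k + 1) := by linarith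
      rw [h3, hq] at h1
      have h4 : (1 : ℤ) = 2 * (2 * Algebra.norm ℤ γ - 2 * q * (co γ).2 ^ 2 - 2 * (co γ).2 ^ 2 -
        2 * k * (co γ).2 - (co γ).2 - 2 * k ^ 2 - 2 * k) := by linarith
      omega
  have hdvd : ∀ p ∈ P, ∀ p' ∈ P, p.2 = p'.2 → ((2 * r : ℕ) : ℤ) ∣ p.1 - p'.1 := by
    intro p hp p' hp' he
    rw [hP, mem_image] at hp hp'
    obtain ⟨J, hJ, rfl⟩ := hp
    obtain ⟨J', hJ', rfl⟩ := hp'
    obtain ⟨k1, hk1⟩ := hpar (g J)
    obtain ⟨k2, hk2⟩ := hpar (g J')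
    have hk : (co (g J)).1 - (co (g J')).1 = 2 * (k1 - k2) := by
      rw [he] at hk1
      linarith
    have h1 : g J - g J' = ((k1 - k2 : ℤ) : 𝓞 K) := by
      apply RingOfIntegers.coe_injective
      simp only [map_sub, map_intCast]
      change ((g J : 𝓞 K) : K) - ((g J' : 𝓞 K) : K) = ((k1 - k2 : ℤ) : K)
      have h3 : (((co (g J)).1 - (co (g J')).1 : ℤ) : K) = ((2 * (k1 - k2) : ℤ) : K) := by
        rw [hk]
      rw [hco1 (g J), hco1 (g J'), he]
      push_cast at h3 ⊢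
      linear_combination (1 / 2) * h3
    have h3 : ((k1 - k2 : ℤ) : 𝓞 K) ∈ R := by
      rw [← h1]
      exact R.sub_mem (hmem J hJ) (hmem J' hJ')
    have h4 := hRk _ h3
    obtain ⟨k3, hk3⟩ := h4
    refine ⟨k3, ?_⟩
    rw [hk, hk3]
    push_cast
    ring
  -- counting
  have hcount : P.card ≤ (⌊2 * α / ((2 * r : ℕ) : ℝ)⌋₊ + 1) * (P.image Prod.snd).card := by
    apply card_le_mul_card_image
    intro v hv
    have h1 : (P.filter (fun p => p.2 = v)).card = ((P.filter (fun p => p.2 = v)).image Prod.fst).card := by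
      rw [card_image_of_injOn]
      intro p hp p' hp' he
      simp only [coe_filter, Set.mem_ofPred_eq] at hp hp'
      exact Prod.ext he (hp.2.trans hp'.2.symm)
    rw [h1]
    apply card_ap _ (2 * r) (by omega) α
    · intro t ht
      rw [mem_image] at ht
      obtain ⟨p, hp, rfl⟩ := ht
      exact hP1 p (mem_filter.mp hp).1
    · intro t ht t' ht'
      rw [mem_image] at ht ht'
      obtain ⟨p, hp, rfl⟩ := ht
      obtain ⟨p', hp', rfl⟩ := ht'
      rw [mem_filter] at hp hp'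
      exact hdvd p hp.1 p' hp'.1 (hp.2.trans hp'.2.symm)
  have hcount2 : (P.image Prod.snd).card ≤ ⌊2 * β / ((1 : ℕ) : ℝ)⌋₊ + 1 := by
    apply card_ap _ 1 one_pos β
    · intro t ht
      rw [mem_image] at ht
      obtain ⟨p, hp, rfl⟩ := ht
      exact hP2 p hp
    · intro t _ t' _
      simp
  have h1 : (⌊2 * α / ((2 * r : ℕ) : ℝ)⌋₊ : ℝ) ≤ α / r := by
    refine (Nat.floor_le (by positivity)).trans (le_of_eq ?_)
    push_cast
    field_simp
  have h3 : (⌊2 * β / ((1 : ℕ) : ℝ)⌋₊ : ℝ) ≤ 2 * β := by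
    refine (Nat.floor_le (by positivity)).trans (le_of_eq ?_)
    push_cast
    ring
  have h4 : (S.card : ℝ) ≤ (α / r + 1) * (2 * β + 1) := by
    rw [hPc]
    calc (P.card : ℝ) ≤ (((⌊2 * α / ((2 * r : ℕ) : ℝ)⌋₊ + 1) * (P.image Prod.snd).card : ℕ) : ℝ) := by
          exact_mod_cast hcount
      _ = ((⌊2 * α / ((2 * r : ℕ) : ℝ)⌋₊ : ℝ) + 1) * ((P.image Prod.snd).card : ℝ) := by
          push_cast; ring
      _ ≤ (α / r + 1) * (2 * β + 1) := by
          apply mul_le_mul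
          · linarith
          · have h5 : ((P.image Prod.snd).card : ℝ) ≤ ((⌊2 * β / ((1 : ℕ) : ℝ)⌋₊ + 1 : ℕ) : ℝ) := by
              exact_mod_cast hcount2
            push_cast at h5 h3
            linarith
          · positivity
          · positivity
  refine h4.trans ?_
  -- final inequality
  have hrd : (r : ℝ) ≤ Real.sqrt d := by
    apply Real.le_sqrt_of_sq_le
    exact_mod_cast hRn
  have hr1 : (1 : ℝ) ≤ r := by exact_mod_cast hrpos
  have e1 : α / r * (2 * β) = 8 * ((Y : ℝ) / Real.sqrt d) := by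
    rw [hβ]
    have : α / r * (2 * (α / Real.sqrt d)) = 2 * (α ^ 2) / (r * Real.sqrt d) := by
      field_simp
    rw [this, hα2]
    field_simp
    ring
  have e2 : α / r ≤ 2 * Real.sqrt Y := by
    rw [div_le_iff₀ hrR, hα, Real.sqrt_mul hrR.le]
    have h5 : Real.sqrt r ≤ r := by
      rw [Real.sqrt_le_left (by positivity)]
      nlinarith
    nlinarith [Real.sqrt_nonneg (Y : ℝ)]
  have e3 : β ≤ 2 * Real.sqrt Y := by
    rw [hβ, div_le_iff₀ hsd, hα, Real.sqrt_mul hrR.le]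
    have h5 : Real.sqrt r ≤ r := by
      rw [Real.sqrt_le_left (by positivity)]
      nlinarith
    nlinarith [Real.sqrt_nonneg (Y : ℝ)]
  have e4 : 0 ≤ (Y : ℝ) / Real.sqrt d := by positivity
  nlinarith [Real.sqrt_nonneg (Y : ℝ)]

end Pool.Agent.H62.C3
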